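import Pool.Agent.Lib_MP_36b788_n.M54
import Pool.Agent.Lib_MP_36b788_n.X5

/-!
# MP_36b788_pr: the stationary limit of the nonlinear lattice cell-dynamo equation, all cases

For every `N ≥ 1`, `d ≥ 1` and `β > 0` there is `k₀ > 0` such that for all diffusivities
`k ∈ [0, k₀]` and all `ε > 0`:

* there is one law `μ` of space-time fields on `[0,∞) × ℤ^d`, invariant under space-time
  translations, mixing in time and ergodic, such that for every solution `H` (with i.i.d. initial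
  values without atom at zero) the finite dimensional distributions of `(τ, x) ↦ H_{t+τ}(x)`
  converge to those of `μ` as `t → ∞`;
* for every law `ρ` on `ℝ^N` without atom at zero and with finite moments there is a solution with
  i.i.d. initial values of law `ρ`.

The definitions used in the statement are those of this file and `IsDynamo`, `IsInit`, `drf`,
`lap`, `mulv`, `rsum` (`Lib_MP_36b788/Sde.lean`), `shiftST` (`Lib_MP_36b788/ShDefs.lean`) and `E`
(`Lib_MP_36b788/Defs.lean`).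
-/

open MeasureTheory ProbabilityTheory Filter Dyn
open scoped NNReal ENNReal Topology BoundedContinuousFunction

namespace Pool.Agent.Results.MP_36b788_pr.StationaryLimitEx

/-- `μ` is invariant under all translations in space and time -/
def Invariant (N d : ℕ) (μ : Measure (ℝ≥0 × Site d → E N)) : Prop :=
  ∀ (s : ℝ≥0) (c : Site d), μ.map (shiftST s c) = μ

/-- `μ` is mixing in time -/
def TimeMixing (N d : ℕ) (μ : Measure (ℝ≥0 × Site d → E N)) : Prop :=
  ∀ A B : Set (ℝ≥0 × Site d → E N), MeasurableSet A → MeasurableSet B →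
    Tendsto (fun T : ℝ≥0 => μ (A ∩ shiftST T 0 ⁻¹' B)) atTop (𝓝 (μ A * μ B))

/-- events which are invariant (mod `μ`) under all translations have measure zero or one -/
def ShiftErgodic (N d : ℕ) (μ : Measure (ℝ≥0 × Site d → E N)) : Prop :=
  ∀ A : Set (ℝ≥0 × Site d → E N), MeasurableSet A →
    (∀ s c, shiftST s c ⁻¹' A =ᵐ[μ] A) → μ A = 0 ∨ μ A = 1

/-- for every solution whose initial values are i.i.d. without atom at zero, the finite dimensional
distributions of the field seen from time `t` converge weakly to those of `μ` as `t → ∞` -/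
def Attracts (N d : ℕ) (k ε β : ℝ) (μ : Measure (ℝ≥0 × Site d → E N)) : Prop :=
  ∀ (Ω : Type) [mΩ : MeasurableSpace Ω] (P : Measure Ω) (ℱ : Filtration ℝ≥0 mΩ)
    (B : Site d → Fin N → Fin N → ℝ≥0 → Ω → ℝ) (H : ℝ≥0 → Site d → Ω → E N),
    IsDynamo P k ε β ℱ B H → IsInit P (H 0) →
    ∀ (I : Finset (ℝ≥0 × Site d)) (g : (I → E N) →ᵇ ℝ),
      Tendsto (fun t : ℝ≥0 => ∫ ω, g (fun q => H (t + q.1.1) q.1.2 ω) ∂P) atTop
        (𝓝 (∫ f, g (fun q => f q) ∂μ))

/-- for every law `ρ` on `ℝ^N` without atom at zero and with finite moments there is a solution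
whose initial values are i.i.d. with law `ρ` -/
def Solvable (N d : ℕ) (k ε β : ℝ) : Prop :=
  ∀ ρ : Measure (E N), IsProbabilityMeasure ρ → ρ {0} = 0 →
    (∀ p : ℕ, Integrable (fun v : E N => ‖v‖ ^ p) ρ) →
    ∃ (Ω : Type) (mΩ : MeasurableSpace Ω) (P : Measure Ω) (ℱ : Filtration ℝ≥0 mΩ)
      (B : Site d → Fin N → Fin N → ℝ≥0 → Ω → ℝ) (H : ℝ≥0 → Site d → Ω → E N),
      IsDynamo P k ε β ℱ B H ∧ IsInit P (H 0) ∧ P.map (H 0 0) = ρ

theorem result (N d : ℕ) (β : ℝ) (hd : 1 ≤ d) (hN : 1 ≤ N) (hβ : 0 < β) :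
    ∃ k₀ : ℝ, 0 < k₀ ∧ ∀ k ε : ℝ, 0 ≤ k → k ≤ k₀ → 0 < ε →
      (∃ μ : Measure (ℝ≥0 × Site d → E N), IsProbabilityMeasure μ ∧
        Invariant N d μ ∧ TimeMixing N d μ ∧ ShiftErgodic N d μ ∧ Attracts N d k ε β μ) ∧
      Solvable N d k ε β := by
  obtain ⟨k₀, hk₀, h⟩ := DynB.main_two N d β hβ (DynC.mix_all N d hN hd β hβ)
  refine ⟨k₀, hk₀, fun k ε hk hk1 hε => ⟨?_, fun ρ hρ hρ0 hρm => ?_⟩⟩
  · obtain ⟨μ, hμ, hc⟩ := h k ε hk hk1 hε
    exact ⟨μ, hμ.prob, hμ.inv, hμ.mix, hμ.erg, hc⟩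
  · exact DynX.exists_sol N d k ε β hk hε hβ ρ hρ0 hρm

end Pool.Agent.Results.MP_36b788_pr.StationaryLimitEx
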